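import Pool.Agent.H544G.Mob

/-!
# Correlations of the Möbius and Liouville functions with the primes, for all shifts near the real numbers `c + α f(i)`

Here `f` is a polynomial with integer coefficients, `α ≠ 0` and `c` are arbitrary real numbers, and `i` runs through
almost all elements of an arbitrary dense set; for instance all the shifts near `√2 i ^ 2` or `π p ^ 3`, `p` prime.

Proof. If `s i` are integers of nearly minimal additive energy, then so are the integer parts of `c + α s i`: a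
solution of `∑ ⌊c + α s (a j)⌋ = ∑ ⌊c + α s (b j)⌋` satisfies `∑ s (a j) = ∑ s (b j) + t` with `|t| ≤ p / |α|`, and the
number of solutions of this equation is largest for `t = 0` (`Pool.Agent.H544G.corr_le`, `En_near`, `real_energy`). The
energy of the polynomial values, the mean value theorem for the shifts in families of small energy and Davenport's bound
for the exponential sums with the Möbius function are from the starting files.
-/

set_option autoImplicit false

namespace Pool.Agent.Results.MP_0bfb7f_nt.ShiftsNearRealMultiples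

open Finset Polynomial

/-- The Möbius function on the integers, `0` at the integers `m ≤ 0`. -/
noncomputable def mob (m : ℤ) : ℂ := if 1 ≤ m then ((ArithmeticFunction.moebius m.toNat : ℤ) : ℂ) else 0

/-- The Liouville function on the integers, `0` at the integers `m ≤ 0`. -/
noncomputable def lam (m : ℤ) : ℂ := if 1 ≤ m then (-1) ^ ArithmeticFunction.cardFactors m.toNat else 0

/-- The correlation sum `∑_{n ≤ X} w(n) Λ(n) F(a n + h)`. For `w = 1`, `a = 1`, `F = μ` and `h = 1` this is the sum of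
the problem (with `n + 1` instead of `n`). -/
noncomputable def corr (F : ℤ → ℂ) (w : ℕ → ℂ) (a : ℕ) (h : ℤ) (X : ℕ) : ℂ :=
  ∑ n ∈ Icc 1 X, w n * ((ArithmeticFunction.vonMangoldt n : ℝ) : ℂ) * F (a * n + h)

/-- For ALL integers `h` at a distance of at most `log ^ W N` from the real number `b`, all `l < L` and all `X` with
`a l * X ≤ B N`, the sums `∑_{n ≤ X} w l n * Λ(n) * μ(a l * n + h)` and `∑_{n ≤ X} w l n * Λ(n) * λ(a l * n + h)` are at
most `N / log ^ U N` in absolute value. -/
def Small (B W U N L : ℕ) (w : ℕ → ℕ → ℂ) (a : ℕ → ℕ) (b : ℝ) : Prop :=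
  ∀ h : ℤ, |(h : ℝ) - b| ≤ Real.log N ^ W → ∀ l < L, ∀ X : ℕ, a l * X ≤ B * N →
    ‖corr mob (w l) (a l) h X‖ ≤ N / Real.log N ^ U ∧ ‖corr lam (w l) (a l) h X‖ ≤ N / Real.log N ^ U

open Classical in
/-- Let `f` be a nonconstant polynomial with integer coefficients, let `B`, `C`, `T`, `W` and `U` be fixed, and let `N`
be large. Let `x ^ deg f` be between `N / log ^ C N` and `B N`, let `α` and `c` be arbitrary real numbers with
`1 / log ^ C N ≤ |α| ≤ B` and `|c| ≤ B N`, and let `M` be an arbitrary set of at least `x / log ^ C N` of the integers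
`1, ..., x` (for instance the primes up to `x`). For each of at most `log ^ T N` indices `l` let `a l ≥ 1`, and let `w l`
be an arbitrary function with `|w l n| ≤ log ^ T N` (for instance `1`, a character, or `Λ(n + 2)`). Then all the `i ∈ M`,
with at most `#M / log ^ U N` exceptions, have the property `Small` for `b = c + α f(i)`: ALL the shifts `h` with
`|h - c - α f(i)| ≤ log ^ W N` have small correlation sums. The number `N₀` does not depend on `x`, `α`, `c`, `M`, `a` and
`w`. -/
theorem result (f : ℤ[X]) (hd : 1 ≤ f.natDegree) (B C T W U : ℕ) :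
    ∃ N₀ : ℕ, ∀ N : ℕ, N₀ ≤ N → ∀ x : ℕ, x ^ f.natDegree ≤ B * N →
      (N : ℝ) ≤ Real.log N ^ C * (x : ℝ) ^ f.natDegree →
      ∀ α c : ℝ, 1 ≤ |α| * Real.log N ^ C → |α| ≤ B → |c| ≤ B * N →
      ∀ M : Finset ℕ, M ⊆ Icc 1 x → (x : ℝ) ≤ Real.log N ^ C * M.card →
      ∀ L : ℕ, (L : ℝ) ≤ Real.log N ^ T → ∀ (w : ℕ → ℕ → ℂ) (a : ℕ → ℕ), (∀ l, 1 ≤ a l) →
      (∀ l n, ‖w l n‖ ≤ Real.log N ^ T) →
      ((M.filter (fun i : ℕ => ¬ Small B W U N L w a (c + α * ((f.eval (i : ℤ) : ℤ) : ℝ)))).card : ℝ) ≤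
        M.card / Real.log N ^ U := by
  obtain ⟨N1, h1⟩ := Pool.Agent.H544G.dense_real_corr Pool.Agent.H373R2.T7.muC
    (fun n => by
      rw [Pool.Agent.H373R2.T7.muC_eq, Complex.norm_real, Real.norm_eq_abs]
      exact Pool.Agent.H373R2.T7.muR_abs n) Pool.Agent.H373R2.T7.sup_muC f hd B C (T + 2) W (U + 1)
  obtain ⟨N2, h2⟩ := Pool.Agent.H544G.dense_real_corr Pool.Agent.H373R2.T7.liR
    (fun n => by unfold Pool.Agent.H373R2.T7.liR; simp) Pool.Agent.H373R2.T7.sup_liou f hd B C (T + 2) W (U + 1)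
  obtain ⟨N3, h3⟩ := Pool.Agent.H373R2.T7.ev_L' 2
  refine ⟨N1 + N2 + N3 + B + 1, fun N hN x hx1 hx2 α c hα1 hα2 hc M hM hMc L hL w a ha hw => ?_⟩
  have hL2 := h3 N (by omega)
  have hN1 : (1 : ℝ) ≤ N := by exact_mod_cast (by omega : 1 ≤ N)
  have hN0 : (0 : ℝ) < N := by linarith
  have hBN : (B : ℝ) ≤ N := by exact_mod_cast (by omega : B ≤ N)
  obtain ⟨G, hG⟩ : ∃ G : ℕ → ℕ → ℂ, G = fun l n => w l n * ((ArithmeticFunction.vonMangoldt n : ℝ) : ℂ) := ⟨_, rfl⟩
  have hGle : ∀ l < L, ∀ n, 1 ≤ n → a l * n ≤ B * N → ‖G l n‖ ≤ Real.log N ^ (T + 2) := by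
    intro l _ n hn hB
    rw [hG]
    simp only
    rw [norm_mul, pow_add]
    apply mul_le_mul (hw l n) _ (norm_nonneg _) (pow_nonneg (by linarith) _)
    rw [Complex.norm_real, Real.norm_of_nonneg ArithmeticFunction.vonMangoldt_nonneg]
    refine ArithmeticFunction.vonMangoldt_le_log.trans ?_
    have hn1 : (1 : ℝ) ≤ n := by exact_mod_cast hn
    have hnB : n ≤ B * N := le_trans (Nat.le_mul_of_pos_left _ (ha l)) hB
    have hnN : (n : ℝ) ≤ (N : ℝ) * N := by
      have h5 : (n : ℝ) ≤ (B : ℝ) * N := by exact_mod_cast hnB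
      exact h5.trans (mul_le_mul_of_nonneg_right hBN hN0.le)
    have h6 : Real.log (n : ℝ) ≤ Real.log ((N : ℝ) * N) := Real.log_le_log (by linarith) hnN
    rw [Real.log_mul hN0.ne' hN0.ne'] at h6
    nlinarith
  have hLK : (L : ℝ) ≤ Real.log N ^ (T + 2) := hL.trans (pow_le_pow_right₀ (by linarith) (by omega))
  obtain ⟨y, hy⟩ : ∃ y : ℕ → ℝ, y = fun i : ℕ => c + α * ((f.eval (i : ℤ) : ℤ) : ℝ) := ⟨_, rfl⟩
  have e1 := h1 N (by omega) x hx1 hx2 α c hα1 hα2 hc M hM hMc L hLK a G (fun l _ => ha l) hGle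
    (M.filter (fun i => Pool.Agent.H544G.BigReal Pool.Agent.H373R2.T7.muC B W (U + 1) N L a G (y i)))
    (filter_subset _ _) (fun i hi => by
      have h7 := (mem_filter.1 hi).2
      rw [hy] at h7
      exact h7)
  have e2 := h2 N (by omega) x hx1 hx2 α c hα1 hα2 hc M hM hMc L hLK a G (fun l _ => ha l) hGle
    (M.filter (fun i => Pool.Agent.H544G.BigReal Pool.Agent.H373R2.T7.liR B W (U + 1) N L a G (y i)))
    (filter_subset _ _) (fun i hi => by
      have h7 := (mem_filter.1 hi).2
      rw [hy] at h7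
      exact h7)
  have hpow : 0 < Real.log (N : ℝ) ^ U := pow_pos (by linarith) _
  have hthr : (N : ℝ) / Real.log N ^ (U + 1) ≤ N / Real.log N ^ U := by
    apply div_le_div_of_nonneg_left hN0.le hpow
    exact pow_le_pow_right₀ (by linarith) (by omega)
  have conv : ∀ (F : ℤ → ℂ) (E : ℕ → ℂ), (∀ m, F m = Pool.Agent.H373R2.T7.exI E m) → ∀ (h : ℤ) (l X : ℕ),
      corr F (w l) (a l) h X = ∑ n ∈ Icc 1 X, G l n * Pool.Agent.H373R2.T7.exI E (((a l * n : ℕ) : ℤ) + h) := by
    intro F E hFE h l X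
    unfold corr
    apply sum_congr rfl
    intro n _
    rw [hG]
    simp only
    rw [hFE]
    push_cast
    rfl
  have hsub : M.filter (fun i : ℕ => ¬ Small B W U N L w a (c + α * ((f.eval (i : ℤ) : ℤ) : ℝ))) ⊆
      M.filter (fun i => Pool.Agent.H544G.BigReal Pool.Agent.H373R2.T7.muC B W (U + 1) N L a G (y i)) ∪
      M.filter (fun i => Pool.Agent.H544G.BigReal Pool.Agent.H373R2.T7.liR B W (U + 1) N L a G (y i)) := by
    intro i hi
    rw [mem_filter] at hi
    obtain ⟨hiM, hi2⟩ := hi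
    unfold Small at hi2
    push Not at hi2
    obtain ⟨h, hh, l, hl, X, hX, hbig⟩ := hi2
    rw [mem_union, mem_filter, mem_filter]
    by_cases hc1 : ‖corr mob (w l) (a l) h X‖ ≤ N / Real.log N ^ U
    · right
      have h8 := hbig hc1
      refine ⟨hiM, h, ?_, l, hl, X, hX, ?_⟩
      · rw [hy]
        exact hh
      · rw [← conv lam Pool.Agent.H373R2.T7.liR (fun m => rfl) h l X]
        exact lt_of_le_of_lt hthr h8
    · left
      refine ⟨hiM, h, ?_, l, hl, X, hX, ?_⟩
      · rw [hy]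
        exact hh
      · rw [← conv mob Pool.Agent.H373R2.T7.muC (fun m => rfl) h l X]
        exact lt_of_le_of_lt hthr (not_le.1 hc1)
  have hcard : ((M.filter (fun i : ℕ => ¬ Small B W U N L w a (c + α * ((f.eval (i : ℤ) : ℤ) : ℝ)))).card : ℝ) ≤
      M.card / Real.log N ^ (U + 1) + M.card / Real.log N ^ (U + 1) := by
    have h9 := (card_le_card hsub).trans (card_union_le _ _)
    have h10 : ((M.filter (fun i : ℕ => ¬ Small B W U N L w a (c + α * ((f.eval (i : ℤ) : ℤ) : ℝ)))).card : ℝ) ≤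
        ((M.filter (fun i => Pool.Agent.H544G.BigReal Pool.Agent.H373R2.T7.muC B W (U + 1) N L a G (y i))).card : ℝ) +
        ((M.filter (fun i => Pool.Agent.H544G.BigReal Pool.Agent.H373R2.T7.liR B W (U + 1) N L a G (y i))).card : ℝ) := by
      exact_mod_cast h9
    linarith
  refine hcard.trans ?_
  rw [← add_div, div_le_div_iff₀ (by positivity) hpow, pow_succ]
  have h11 : (0 : ℝ) ≤ M.card := Nat.cast_nonneg _
  calc ((M.card : ℝ) + M.card) * Real.log N ^ U = (M.card * Real.log N ^ U) * 2 := by ring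
    _ ≤ (M.card * Real.log N ^ U) * Real.log N := mul_le_mul_of_nonneg_left hL2 (by positivity)
    _ = M.card * (Real.log N ^ U * Real.log N) := by ring

end Pool.Agent.Results.MP_0bfb7f_nt.ShiftsNearRealMultiples
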