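import Pool.Agent.helper24_UT.Ch13
import Pool.Agent.helper24_UT.Pf

set_option autoImplicit false

/-!
# The Möbius function at shifted primes: shifts from thin families in windows of length `N ^ (1 / 3 + ε)`, all classes to all moduli

Let `ε > 0` and `A`, `C`, `T` be fixed, let `N` be large. Let `s 1, ..., s x` be integers in a window `(c, c + H]` with `|c| ≤ C N`,
`N ^ (1 / 3 + ε) ≤ H ≤ N`, whose additive energy of some order `p` is, up to the factor `(log N) ^ C`, the smallest possible one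
`x ^ (2 p) / H`; for instance `s m = c + f(m)`, `m ≤ x`, for a fixed polynomial `f` of degree `d ≥ 1` and `N ^ (1 / 3 + ε) ≤ x ^ d ≤ N`; so
`c + m ^ d` with `m ≤ N ^ (1 / (3 d) + ε)`. Let `w(n)` be arbitrary weights with `|w(n)| ≤ (log N) ^ T`; in the problem `w = Λ`. For all but at most
`x / (log N) ^ A` of the members `h` of the family the sums of `w(n) μ(n + h)` over the `n ≤ y`, `n ≡ r (mod q)` are small in the mean square over ALL
residue classes to ALL moduli `q ≤ N / (log N) ^ B`: the sum of their squares is at most `N ^ 2 / (log N) ^ A`, where the length `y = y(q, r) ≤ N` may be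
chosen in every class as unfavourably as possible; in particular (`q = 1`) the sum of `Λ(n) μ(n + h)` over the `n ≤ y` is at most
`N / (log N) ^ (A / 2)` for all `y ≤ N`. The same holds for the function of Liouville. The problem is the shift `h = 1`, `w = Λ`.

Proof. `∑_{x ≤ X} |∑_{x < m ≤ x + K} μ(m) e(m α)| ^ 2 ≤ X K ^ 2 / (log X) ^ A` uniformly in `α`, for `K ≥ X ^ (1 / 3 + ε)`
(`Pool.Agent.helper24_UT.Ch.t_MKLT` and `t_MKMT`, the method of Mikawa); Hölder's inequality with the additive energy of the family; the large sieve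
in the form of Barban, Davenport and Halberstam. The energy of polynomial values is from the starting files.
-/

namespace Pool.Agent.Results.MP_0bfb7f_nt.ThinFamiliesShortWindows

open Finset Polynomial

/-- the Möbius function on the integers, `0` at the integers `m ≤ 0` -/
noncomputable def mu (m : ℤ) : ℝ := if 1 ≤ m then ((ArithmeticFunction.moebius m.toNat : ℤ) : ℝ) else 0

/-- the Liouville function on the integers, `0` at the integers `m ≤ 0` -/
noncomputable def lam (m : ℤ) : ℝ := if 1 ≤ m then (-1) ^ (ArithmeticFunction.cardFactors m.toNat) else 0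

/-- the sum of `w(n) f(n + h)` over the `1 ≤ n ≤ y`, `n ≡ r (mod q)` (for `r < q`) -/
noncomputable def corr (f : ℤ → ℝ) (w : ℕ → ℂ) (h : ℤ) (q r y : ℕ) : ℂ :=
  ∑ n ∈ (Icc 1 y).filter (fun n => n % q = r), w n * (f ((n : ℤ) + h) : ℂ)

/-- For `f = μ` and `f = λ`, all `Q ≤ N / (log N) ^ B` and all choices of the lengths `y q r ≤ N` the sum of the `|corr| ^ 2` over all residue
classes to all moduli `q ≤ Q` is at most `N ^ 2 / (log N) ^ A`. -/
def Small (A B N : ℕ) (w : ℕ → ℂ) (h : ℤ) : Prop :=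
  ∀ f : ℤ → ℝ, (f = mu ∨ f = lam) → ∀ Q : ℕ, (Q : ℝ) * (Real.log N) ^ B ≤ N → ∀ y : ℕ → ℕ → ℕ, (∀ q r, y q r ≤ N) →
    ∑ q ∈ Icc 1 Q, ∑ r ∈ range q, ‖corr f w h q r (y q r)‖ ^ 2 ≤ (N : ℝ) ^ 2 / (Real.log N) ^ A

/-- The additive energy of order `p` of the family `s 1, ..., s x`: the number of the solutions of
`s (v 1) + ... + s (v p) = s (w 1) + ... + s (w p)` with all `v i`, `w i` in `{1, ..., x}`. -/
def energy (p x : ℕ) (s : ℕ → ℤ) : ℕ :=
  (((Fintype.piFinset fun _ : Fin p => Icc 1 x) ×ˢ (Fintype.piFinset fun _ : Fin p => Icc 1 x)).filter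
    (fun q => ∑ i, s (q.1 i) = ∑ i, s (q.2 i))).card

open Classical in
/-- the number of the `m`, `1 ≤ m ≤ x`, for which `Small` fails for the shift `s m` -/
noncomputable def exceptions (A B N : ℕ) (w : ℕ → ℂ) (x : ℕ) (s : ℕ → ℤ) : ℕ :=
  ((Icc 1 x).filter (fun m => ¬ Small A B N w (s m))).card

theorem mu_eq : mu = Pool.Agent.helper24_UT.muI := rfl
theorem lam_eq : lam = Pool.Agent.helper24_UT.liI := rfl

open Classical in
/-- the first part -/
theorem general (ε : ℝ) (hε : 0 < ε) (A C T p : ℕ) (hp : 1 ≤ p) : ∃ B N₀ : ℕ, ∀ N : ℕ, N₀ ≤ N → ∀ (H x : ℕ) (c : ℤ) (s : ℕ → ℤ),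
    (N : ℝ) ^ (1 / 3 + ε) ≤ H → H ≤ N → |c| ≤ C * N → (∀ m ∈ Icc 1 x, c < s m ∧ s m ≤ c + H) →
    (energy p x s : ℝ) * H ≤ Real.log N ^ C * (x : ℝ) ^ (2 * p) →
    ∀ w : ℕ → ℂ, (∀ n ∈ Icc 1 N, ‖w n‖ ≤ Real.log N ^ T) → (exceptions A B N w x s : ℝ) ≤ x / Real.log N ^ A := by
  obtain ⟨e, he⟩ := exists_nat_gt (1 / ε)
  have he0 : (0 : ℝ) < e := lt_trans (by positivity) he
  have he1 : 1 ≤ e := by exact_mod_cast he0
  have hle : 1 / (e : ℝ) ≤ ε := by
    rw [div_le_iff₀ he0]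
    rw [div_lt_iff₀ hε] at he
    linarith
  obtain ⟨B, N₀, h⟩ := Pool.Agent.helper24_UT.Ch.t_R21 p e (A + 1) C C T hp he1
  have hlog : Filter.Tendsto (fun N : ℕ => Real.log (N : ℝ)) Filter.atTop Filter.atTop :=
    Real.tendsto_log_atTop.comp tendsto_natCast_atTop_atTop
  obtain ⟨N₁, hN₁⟩ := Filter.eventually_atTop.1 (hlog.eventually_ge_atTop 2)
  refine ⟨B, max (max N₀ N₁) 1, fun N hN H x c s hH1 hH2 hc hs hE w hw => ?_⟩
  have hNN0 : N₀ ≤ N := (le_max_left _ _).trans ((le_max_left _ _).trans hN)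
  have hL : 2 ≤ Real.log N := hN₁ N ((le_max_right _ _).trans ((le_max_left _ _).trans hN))
  have hN1 : (1 : ℝ) ≤ N := by exact_mod_cast (le_max_right _ _).trans hN
  have hH1' : (N : ℝ) ^ (1 / 3 + 1 / e : ℝ) ≤ H := (Real.rpow_le_rpow_of_exponent_le hN1 (by linarith)).trans hH1
  have key : ∀ f : ℤ → ℝ, (f = mu ∨ f = lam) →
      (((Icc 1 x).filter (fun m => ¬ ∀ Q : ℕ, (Q : ℝ) * (Real.log N) ^ B ≤ N → ∀ y : ℕ → ℕ → ℕ, (∀ q r, y q r ≤ N) →
        ∑ q ∈ Icc 1 Q, ∑ r ∈ range q, ‖corr f w (s m) q r (y q r)‖ ^ 2 ≤ (N : ℝ) ^ 2 / (Real.log N) ^ (A + 1))).card : ℝ) ≤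
        x / Real.log N ^ (A + 1) := by
    intro f hf
    exact h N hNN0 H hH1' hH2 c x s hc ⟨hs, hE⟩ f (by
      rcases hf with hf | hf
      · right; rw [hf, mu_eq]
      · left; rw [hf, lam_eq]) w hw
  have hsub : (Icc 1 x).filter (fun m => ¬ Small A B N w (s m)) ⊆
      (Icc 1 x).filter (fun m => ¬ ∀ Q : ℕ, (Q : ℝ) * (Real.log N) ^ B ≤ N → ∀ y : ℕ → ℕ → ℕ, (∀ q r, y q r ≤ N) →
        ∑ q ∈ Icc 1 Q, ∑ r ∈ range q, ‖corr mu w (s m) q r (y q r)‖ ^ 2 ≤ (N : ℝ) ^ 2 / (Real.log N) ^ (A + 1)) ∪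
      (Icc 1 x).filter (fun m => ¬ ∀ Q : ℕ, (Q : ℝ) * (Real.log N) ^ B ≤ N → ∀ y : ℕ → ℕ → ℕ, (∀ q r, y q r ≤ N) →
        ∑ q ∈ Icc 1 Q, ∑ r ∈ range q, ‖corr lam w (s m) q r (y q r)‖ ^ 2 ≤ (N : ℝ) ^ 2 / (Real.log N) ^ (A + 1)) := by
    intro m hm
    rw [mem_filter] at hm
    rw [mem_union, mem_filter, mem_filter]
    by_contra hcon
    push Not at hcon
    obtain ⟨h1, h2⟩ := hcon
    apply hm.2
    intro f hf Q hQ y hy
    have hle2 : (N : ℝ) ^ 2 / (Real.log N) ^ (A + 1) ≤ (N : ℝ) ^ 2 / (Real.log N) ^ A := by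
      apply div_le_div_of_nonneg_left (by positivity) (by positivity)
      exact pow_le_pow_right₀ (by linarith) (by omega)
    rcases hf with hf | hf
    · rw [hf]
      exact (h1 hm.1 Q hQ y hy).trans hle2
    · rw [hf]
      exact (h2 hm.1 Q hQ y hy).trans hle2
  calc (exceptions A B N w x s : ℝ) ≤ x / Real.log N ^ (A + 1) + x / Real.log N ^ (A + 1) := by
        refine le_trans (Nat.cast_le.2 ((card_le_card hsub).trans (card_union_le _ _))) ?_
        push_cast
        exact add_le_add (key mu (Or.inl rfl)) (key lam (Or.inr rfl))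
    _ ≤ x / Real.log N ^ A := by
        rw [← two_mul, ← mul_div_assoc, div_le_div_iff₀ (by positivity) (by positivity)]
        calc 2 * (x : ℝ) * Real.log N ^ A ≤ Real.log N * x * Real.log N ^ A := by gcongr
          _ = x * Real.log N ^ (A + 1) := by ring

/-- Let `ε > 0` and `A`, `C`, `T` be fixed.

* Let `p ≥ 1`. There is a `B` such that for all large `N` and all families `s 1, ..., s x` of integers in windows `(c, c + H]` with
  `|c| ≤ C N`, `N ^ (1 / 3 + ε) ≤ H ≤ N`, with an additive energy of order `p` at most `(log N) ^ C x ^ (2 p) / H`, and for all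
  weights `|w(n)| ≤ (log N) ^ T`: `Small` is true for all members of the family with at most `x / (log N) ^ A` exceptions.
* Let `f` be a nonconstant polynomial with integer coefficients. There is a `B` such that for all large `N` the same is true for the
  numbers `c + f m`, `m ≤ x`, if `|c| ≤ C N` and `N ^ (1 / 3 + ε) ≤ x ^ deg f ≤ N`. -/
theorem result (ε : ℝ) (hε : 0 < ε) (A C T : ℕ) :
    (∀ p : ℕ, 1 ≤ p → ∃ B N₀ : ℕ, ∀ N : ℕ, N₀ ≤ N → ∀ (H x : ℕ) (c : ℤ) (s : ℕ → ℤ),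
      (N : ℝ) ^ (1 / 3 + ε) ≤ H → H ≤ N → |c| ≤ C * N → (∀ m ∈ Icc 1 x, c < s m ∧ s m ≤ c + H) →
      (energy p x s : ℝ) * H ≤ Real.log N ^ C * (x : ℝ) ^ (2 * p) →
      ∀ w : ℕ → ℂ, (∀ n ∈ Icc 1 N, ‖w n‖ ≤ Real.log N ^ T) → (exceptions A B N w x s : ℝ) ≤ x / Real.log N ^ A) ∧
    (∀ f : ℤ[X], 1 ≤ f.natDegree → ∃ B N₀ : ℕ, ∀ N : ℕ, N₀ ≤ N → ∀ (x : ℕ) (c : ℤ), |c| ≤ C * N →
      (N : ℝ) ^ (1 / 3 + ε) ≤ (x : ℝ) ^ f.natDegree → x ^ f.natDegree ≤ N →
      ∀ w : ℕ → ℂ, (∀ n ∈ Icc 1 N, ‖w n‖ ≤ Real.log N ^ T) →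
        (exceptions A B N w x (fun m => c + f.eval (m : ℤ)) : ℝ) ≤ x / Real.log N ^ A) := by
  classical
  refine ⟨fun p hp => general ε hε A C T p hp, fun f hd => ?_⟩
  obtain ⟨p, D, N₁, hp, hD, hfam⟩ := Pool.Agent.helper24_UT.Pf.poly_fam f hd
  obtain ⟨B, N₂, h⟩ := general (ε / 2) (by positivity) (A + 2) (C + 1) T p hp
  obtain ⟨N₃, hsc⟩ := Pool.Agent.helper24_UT.Pf.scale (2 * D) (by omega) ε hε B
  refine ⟨2 * B, max (max N₁ N₂) N₃, fun N hN x c hc hx1 hx2 w hw => ?_⟩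
  obtain ⟨g1, g2, g3, g4, g5, g6, _⟩ := hsc N ((le_max_right _ _).trans hN)
  have hNN : N ≤ 2 * D * N := Nat.le_mul_of_pos_left N (by omega)
  have hN0 : (0 : ℝ) < N := by exact_mod_cast (by omega : 0 < N)
  have hD' : (1 : ℝ) ≤ D := by exact_mod_cast hD
  have hN1' : N₁ ≤ 2 * D * N := ((le_max_left _ _).trans ((le_max_left _ _).trans hN)).trans hNN
  have hN2' : N₂ ≤ 2 * D * N := ((le_max_right _ _).trans ((le_max_left _ _).trans hN)).trans hNN
  have hG2 : (2 : ℝ) ≤ Real.log N := by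
    refine le_trans ?_ g3
    push_cast
    linarith
  have hlN : (0 : ℝ) < Real.log N := by linarith
  have hl' : (0 : ℝ) < Real.log ((2 * D * N : ℕ) : ℝ) := by linarith
  have h7 : (((2 * D * N : ℕ) : ℝ)) = ((2 * D : ℕ) : ℝ) * N := by push_cast; ring
  have hx : 1 ≤ x := by
    by_contra hcon
    have h0 : x = 0 := by omega
    rw [h0, Nat.cast_zero, zero_pow (by omega)] at hx1
    have : (0 : ℝ) < (N : ℝ) ^ (1 / 3 + ε) := by positivity
    linarith
  have hF := hfam (2 * D * N) hN1' x hx c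
  have hxN : (((x ^ f.natDegree : ℕ) : ℤ)) ≤ N := by exact_mod_cast hx2
  have key := h (2 * D * N) hN2' (2 * D * x ^ f.natDegree) x (c - D * x ^ f.natDegree) (fun m => c + f.eval (m : ℤ))
    (by
      refine g6.trans (hx1.trans ?_)
      push_cast
      have : (0 : ℝ) ≤ (x : ℝ) ^ f.natDegree := by positivity
      nlinarith)
    (Nat.mul_le_mul_left _ hx2)
    (by
      have h8 : |c - (D : ℤ) * (x : ℤ) ^ f.natDegree| ≤ |c| + (D : ℤ) * (x : ℤ) ^ f.natDegree := by
        refine (abs_sub _ _).trans ?_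
        rw [abs_of_nonneg (by positivity : (0 : ℤ) ≤ (D : ℤ) * (x : ℤ) ^ f.natDegree)]
      refine h8.trans ?_
      have h9 : (D : ℤ) * (x : ℤ) ^ f.natDegree ≤ D * N := by
        apply mul_le_mul_of_nonneg_left _ (by positivity)
        have := hxN
        push_cast at this
        exact this
      have hCN : (0 : ℤ) ≤ (C : ℤ) * N := by positivity
      have hDZ : (1 : ℤ) ≤ D := by exact_mod_cast hD
      have hNZ : (0 : ℤ) ≤ N := by positivity
      push_cast
      nlinarith)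
    hF.1
    (by
      refine hF.2.trans ?_
      apply mul_le_mul_of_nonneg_right _ (by positivity)
      rw [pow_one]
      exact le_self_pow₀ (by linarith) (by omega))
    (fun n => if n ≤ N then w n else 0)
    (by
      intro n hn
      split_ifs with hnN
      · refine (hw n (mem_Icc.2 ⟨(mem_Icc.1 hn).1, hnN⟩)).trans ?_
        exact pow_le_pow_left₀ hlN.le g4 _
      · rw [norm_zero]
        positivity)
  refine le_trans ?_ (key.trans ?_)
  · unfold exceptions
    refine Nat.cast_le.2 (card_le_card fun m hm => ?_)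
    have hm := mem_filter.1 hm
    refine mem_filter.2 ⟨hm.1, fun hg => hm.2 ?_⟩
    intro g hgf Q hQ y hy
    have hQ' : (Q : ℝ) * Real.log ((2 * D * N : ℕ) : ℝ) ^ B ≤ ((2 * D * N : ℕ) : ℝ) := by
      calc (Q : ℝ) * Real.log ((2 * D * N : ℕ) : ℝ) ^ B ≤ (Q : ℝ) * (Real.log N * Real.log N) ^ B := by
            apply mul_le_mul_of_nonneg_left _ (Nat.cast_nonneg _)
            apply pow_le_pow_left₀ hl'.le
            nlinarith
        _ = (Q : ℝ) * Real.log N ^ (2 * B) := by rw [pow_mul, sq]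
        _ ≤ N := hQ
        _ ≤ _ := by exact_mod_cast hNN
    have k2 := hg g hgf Q hQ' y (fun q r => (hy q r).trans hNN)
    have hcorr : ∀ q r, corr g (fun n => if n ≤ N then w n else 0) (c + f.eval (m : ℤ)) q r (y q r) =
        corr g w (c + f.eval (m : ℤ)) q r (y q r) := by
      intro q r
      unfold corr
      apply sum_congr rfl
      intro n hn
      have hn1 := mem_Icc.1 (mem_filter.1 hn).1
      simp only
      rw [if_pos (hn1.2.trans (hy q r))]
    simp only [hcorr] at k2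
    refine k2.trans ?_
    rw [div_le_div_iff₀ (by positivity) (by positivity)]
    calc (((2 * D * N : ℕ) : ℝ)) ^ 2 * Real.log N ^ A = (N : ℝ) ^ 2 * (((2 * D : ℕ) : ℝ) ^ 2 * Real.log N ^ A) := by
          rw [h7]; ring
      _ ≤ (N : ℝ) ^ 2 * (Real.log N ^ 2 * Real.log N ^ A) := by
        apply mul_le_mul_of_nonneg_left _ (by positivity)
        apply mul_le_mul_of_nonneg_right _ (by positivity)
        exact pow_le_pow_left₀ (Nat.cast_nonneg _) g3 2
      _ = (N : ℝ) ^ 2 * Real.log N ^ (A + 2) := by ring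
      _ ≤ (N : ℝ) ^ 2 * Real.log ((2 * D * N : ℕ) : ℝ) ^ (A + 2) := by
        apply mul_le_mul_of_nonneg_left _ (by positivity)
        exact pow_le_pow_left₀ hlN.le g4 _
  · apply div_le_div_of_nonneg_left (Nat.cast_nonneg _) (by positivity)
    calc Real.log N ^ A ≤ Real.log N ^ (A + 2) := pow_le_pow_right₀ g2 (by omega)
      _ ≤ _ := pow_le_pow_left₀ (by linarith) g4 _

end Pool.Agent.Results.MP_0bfb7f_nt.ThinFamiliesShortWindows
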